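import Pool.Agent.K1H47.RC.Stm

/-!
# Piece S_OPEN of the project RC (helper47)
-/

set_option autoImplicit false

namespace Pool.Agent.K1H65.RC

open MvPolynomial Topology Filter Pool.Agent.K1H47.RC

section

variable {L : Type} [NontriviallyNormedField L] {ι : Type} [Fintype ι]

/-- the gradient -/
noncomputable def grad (q : MvPolynomial ι L) (z : ι → L) : (ι → L) →L[L] L :=
  ∑ i, eval z (pderiv i q) • ContinuousLinearMap.proj (R := L) (φ := fun _ : ι => L) i

lemma grad_apply (q : MvPolynomial ι L) (z w : ι → L) :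
    grad q z w = ∑ i, eval z (pderiv i q) * w i := by
  simp [grad]

lemma strict_eval (q : MvPolynomial ι L) (z : ι → L) :
    HasStrictFDerivAt (fun x : ι → L => eval x q) (grad q z) z := by
  classical
  induction q using MvPolynomial.induction_on with
  | C a =>
    have h1 : grad (C a) z = 0 := by
      ext w
      rw [grad_apply]
      simp
    rw [h1]
    simp only [eval_C]
    exact hasStrictFDerivAt_const a z
  | add p q hp hq =>
    have h1 : grad (p + q) z = grad p z + grad q z := by
      ext w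
      rw [add_apply, grad_apply, grad_apply, grad_apply,
        ← Finset.sum_add_distrib]
      refine Finset.sum_congr rfl fun i _ => ?_
      rw [map_add, map_add]
      ring
    rw [h1]
    simp only [map_add]
    exact hp.add hq
  | mul_X p i hp =>
    have h1 : grad (p * X i) z = eval z p •
        ContinuousLinearMap.proj (R := L) (φ := fun _ : ι => L) i + z i • grad p z := by
      ext w
      rw [grad_apply]
      simp only [add_apply, smul_apply, smul_eq_mul,
        ContinuousLinearMap.proj_apply, grad_apply]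
      have h2 : ∀ j, eval z (pderiv j (p * X i)) * w j =
          (if j = i then eval z p * w i else 0) + z i * (eval z (pderiv j p) * w j) := by
        intro j
        rw [Derivation.leibniz, pderiv_X]
        simp only [smul_eq_mul, map_add, map_mul, eval_X]
        by_cases hj : j = i
        · subst hj
          simp
          ring
        · rw [Pi.single_eq_of_ne (fun h => hj h.symm), if_neg hj]
          simp
          ring
      rw [Finset.sum_congr rfl fun j _ => h2 j, Finset.sum_add_distrib, ← Finset.mul_sum]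
      simp
    rw [h1]
    simp only [map_mul, eval_X]
    have h3 : HasStrictFDerivAt (fun x : ι → L => x i)
        (ContinuousLinearMap.proj (R := L) (φ := fun _ : ι => L) i) z :=
      (ContinuousLinearMap.proj (R := L) (φ := fun _ : ι => L) i).hasStrictFDerivAt
    exact hp.mul h3

omit [Fintype ι] in
lemma eval_smul_hom {q : MvPolynomial ι L} {d : ℕ} (hq : q.IsHomogeneous d) (c : L)
    (x : ι → L) : eval (c • x) q = c ^ d * eval x q := by
  rw [eval_eq, eval_eq, Finset.mul_sum]
  refine Finset.sum_congr rfl fun e he => ?_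
  have h1 : ∏ i ∈ e.support, (c • x) i ^ e i = c ^ d * ∏ i ∈ e.support, x i ^ e i := by
    simp only [Pi.smul_apply, smul_eq_mul, mul_pow, Finset.prod_mul_distrib]
    rw [Finset.prod_pow_eq_pow_sum]
    congr 2
    have := hq.degree_eq_sum_deg_support he
    rw [this]
  rw [h1]
  ring

lemma mem_tanSp {S : Set (MvPolynomial ι L)} {z w : ι → L} :
    w ∈ tanSp S z ↔ ∀ q ∈ S, grad q z w = 0 := by
  constructor
  · intro h q hq
    rw [grad_apply]
    exact h q hq
  · intro h q hq
    rw [← grad_apply]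
    exact h q hq

end

lemma inj_of_strict {L E : Type} [NontriviallyNormedField L] [NormedAddCommGroup E]
    [NormedSpace L E] {H : E → E} {x₀ : E}
    (hH : HasStrictFDerivAt H (ContinuousLinearMap.id L E) x₀) :
    ∃ V₀ ∈ 𝓝 x₀, ∀ z ∈ V₀, ∀ z' ∈ V₀, H z = H z' → z = z' := by
  obtain ⟨V₀, hV₀, hVV⟩ := hH.approximates_deriv_on_nhds (c := 1 / 2) (Or.inr (by norm_num))
  refine ⟨V₀, hV₀, fun z hz z' hz' heq => ?_⟩
  have h2 := hVV z hz z' hz'
  rw [heq, sub_self, zero_sub, norm_neg, ContinuousLinearMap.id_apply] at h2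
  have h3 : ‖z - z'‖ = 0 := by
    have := norm_nonneg (z - z')
    push_cast at h2
    linarith
  exact sub_eq_zero.mp (norm_eq_zero.mp h3)

theorem t_OPEN : S_OPEN := by
  classical
  intro L _ _ ι _ _ S hS Ψ a D hD hz hminor hrank N hN
  obtain ⟨i, j, k, hdet⟩ := hminor
  set x₀ := Ψ a with hx₀
  let e : Fin 3 → ι := ![i, j, k]
  let v : Fin 3 → (ι → L) := ![x₀, D (1, 0), D (0, 1)]
  let l : (ι → L) →L[L] (Fin 3 → L) :=
    ContinuousLinearMap.pi fun m => ContinuousLinearMap.proj (R := L) (φ := fun _ : ι => L) (e m)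
  have hl : ∀ w m, l w m = w (e m) := fun _ _ => rfl
  -- independence
  have hlv : LinearIndependent L fun r => l (v r) := by
    have h1 : Matrix.det (Matrix.of fun r c => v r (e c)) ≠ 0 := by
      have h2 : (Matrix.of fun r c => v r (e c)) =
          !![x₀ i, x₀ j, x₀ k; D (1, 0) i, D (1, 0) j, D (1, 0) k;
            D (0, 1) i, D (0, 1) j, D (0, 1) k] := by
        ext r c
        fin_cases r <;> fin_cases c <;> rfl
      rw [h2]
      exact hdet
    exact Matrix.linearIndependent_rows_of_det_ne_zero h1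
  have hv : LinearIndependent L v := LinearIndependent.of_comp (l : (ι → L) →ₗ[L] (Fin 3 → L)) hlv
  -- the vectors are tangent
  have hvK : ∀ r, v r ∈ tanSp S x₀ := by
    have hder : ∀ q ∈ S, ∀ y : L × L, grad q x₀ (D y) = 0 := by
      intro q hq y
      have h1 : HasFDerivAt (fun b => eval (Ψ b) q) ((grad q x₀).comp D) a :=
        ((strict_eval q x₀).comp a hD).hasFDerivAt
      have h2 : HasFDerivAt (fun b => eval (Ψ b) q) (0 : L × L →L[L] L) a := by
        refine (hasFDerivAt_const (0 : L) a).congr_of_eventuallyEq ?_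
        exact hz.mono fun b hb => hb q hq
      have h3 := h1.unique h2
      exact congrArg (fun f : L × L →L[L] L => f y) h3
    have h0 : x₀ ∈ tanSp S x₀ := by
      intro q hq
      obtain ⟨d, hd⟩ := hS q hq
      have h1 := congrArg (eval x₀) hd.sum_X_mul_pderiv
      rw [map_sum] at h1
      simp only [map_mul, eval_X, nsmul_eq_mul] at h1
      have h2 : eval x₀ q = 0 := hz.self_of_nhds q hq
      rw [h2] at h1
      simp only [mul_zero] at h1
      rw [← h1]
      exact Finset.sum_congr rfl fun _ _ => mul_comm _ _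
    intro r
    fin_cases r
    · exact h0
    · exact mem_tanSp.mpr fun q hq => hder q hq _
    · exact mem_tanSp.mpr fun q hq => hder q hq _
  have hspan : Submodule.span L (Set.range v) = tanSp S x₀ := by
    apply Submodule.eq_of_le_of_finrank_le
    · rw [Submodule.span_le]
      rintro _ ⟨r, rfl⟩
      exact hvK r
    · rw [finrank_span_eq_card hv]
      simpa using hrank
  have hinj : ∀ w ∈ tanSp S x₀, l w = 0 → w = 0 := by
    intro w hw hlw
    rw [← hspan] at hw
    obtain ⟨c, rfl⟩ := (Submodule.mem_span_range_iff_exists_fun L).mp hw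
    have h1 : ∑ r, c r • l (v r) = 0 := by
      rw [← hlw, map_sum]
      exact Finset.sum_congr rfl fun r _ => (map_smul l (c r) (v r)).symm
    have h2 := Fintype.linearIndependent_iff.mp hlv c h1
    exact Finset.sum_eq_zero fun r _ => by rw [h2 r, zero_smul]
  -- finitely many equations
  obtain ⟨F, hFS, hF⟩ : ∃ F : Finset (MvPolynomial ι L), (F : Set (MvPolynomial ι L)) ⊆ S ∧
      ∀ w : ι → L, (∀ q ∈ F, grad q x₀ w = 0) → w ∈ tanSp S x₀ := by
    let g : MvPolynomial ι L → Module.Dual L (ι → L) := fun q => (grad q x₀ : (ι → L) →ₗ[L] L)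
    have h1 : (Submodule.span L (g '' S)).FG := IsNoetherian.noetherian _
    obtain ⟨s', hs', hs⟩ := (Submodule.fg_span_iff_fg_span_finset_subset _).mp h1
    obtain ⟨F, hF, rfl⟩ := Finset.subset_set_image_iff.mp hs'
    refine ⟨F, hF, fun w hw => mem_tanSp.mpr fun q hq => ?_⟩
    have h2 : g q ∈ Submodule.span L ((F.image g : Finset _) : Set (Module.Dual L (ι → L))) := by
      rw [← hs]
      exact Submodule.subset_span ⟨q, hq, rfl⟩
    have h3 : ∀ f ∈ Submodule.span L ((F.image g : Finset _) : Set (Module.Dual L (ι → L))),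
        f w = 0 := by
      intro f hf
      induction hf using Submodule.span_induction with
      | mem f hf =>
        obtain ⟨q', hq', rfl⟩ := Finset.mem_image.mp (Finset.mem_coe.mp hf)
        exact hw q' hq'
      | zero => rfl
      | add f f' _ _ h h' => rw [LinearMap.add_apply, h, h', add_zero]
      | smul c f _ h => rw [LinearMap.smul_apply, h, smul_zero]
    exact h3 _ h2
  let P : (ι → L) →L[L] (F → L) × (Fin 3 → L) :=
    (ContinuousLinearMap.pi fun q : F => grad (q : MvPolynomial ι L) x₀).prod l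
  have hPker : LinearMap.ker (P : (ι → L) →ₗ[L] (F → L) × (Fin 3 → L)) = ⊥ := by
    rw [LinearMap.ker_eq_bot']
    intro w hw
    have h1 : P w = 0 := hw
    have h2 : (fun q : F => grad (q : MvPolynomial ι L) x₀ w) = 0 := congrArg Prod.fst h1
    have h3 : l w = 0 := congrArg Prod.snd h1
    exact hinj w (hF w fun q hq => congrFun h2 ⟨q, hq⟩) h3
  obtain ⟨B₀, hB₀⟩ := LinearMap.exists_leftInverse_of_injective _ hPker
  let B : (F → L) × (Fin 3 → L) →L[L] (ι → L) := LinearMap.toContinuousLinearMap B₀
  have hBP : B.comp P = ContinuousLinearMap.id L (ι → L) := by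
    ext1 w
    exact congrArg (fun f : (ι → L) →ₗ[L] (ι → L) => f w) hB₀
  let H : (ι → L) → (ι → L) := fun z => B ((fun q : F => eval z (q : MvPolynomial ι L)), l z)
  have hH : HasStrictFDerivAt H (ContinuousLinearMap.id L (ι → L)) x₀ := by
    rw [← hBP]
    refine B.hasStrictFDerivAt.comp x₀ ?_
    refine HasStrictFDerivAt.prodMk ?_ l.hasStrictFDerivAt
    rw [hasStrictFDerivAt_pi]
    exact fun q => strict_eval _ _
  -- injectivity of H
  obtain ⟨V₀, hV₀, hVinj⟩ := inj_of_strict hH
  -- the open map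
  let G : L × (L × L) → (Fin 3 → L) := fun y => y.1 • l (Ψ y.2)
  let G' : L × (L × L) →L[L] (Fin 3 → L) :=
    (1 : L) • (l.comp D).comp (ContinuousLinearMap.snd L L (L × L)) +
      (ContinuousLinearMap.fst L L (L × L)).smulRight (l x₀)
  have hG : HasStrictFDerivAt G G' (1, a) := by
    have h1 : HasStrictFDerivAt (fun y : L × (L × L) => y.1) (ContinuousLinearMap.fst L L (L × L))
        (1, a) := hasStrictFDerivAt_fst
    have h2 : HasStrictFDerivAt (fun y : L × (L × L) => l (Ψ y.2))
        ((l.comp D).comp (ContinuousLinearMap.snd L L (L × L))) (1, a) := by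
      have h3 : HasStrictFDerivAt (fun y : L × (L × L) => y.2)
          (ContinuousLinearMap.snd L L (L × L)) (1, a) := hasStrictFDerivAt_snd
      have h4 : HasStrictFDerivAt (fun b => l (Ψ b)) (l.comp D) a :=
        l.hasStrictFDerivAt.comp a hD
      exact HasStrictFDerivAt.comp (1, a) h4 h3
    exact h1.smul h2
  have hG'surj : LinearMap.range (G' : L × (L × L) →ₗ[L] (Fin 3 → L)) = ⊤ := by
    have h1 : Submodule.span L (Set.range fun r => l (v r)) = ⊤ := by
      apply LinearIndependent.span_eq_top_of_card_eq_finrank hlv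
      simp
    rw [eq_top_iff, ← h1, Submodule.span_le]
    rintro _ ⟨r, rfl⟩
    fin_cases r
    · refine ⟨(1, 0), ?_⟩
      change (1 : L) • l (D 0) + (1 : L) • l x₀ = l x₀
      simp
    · refine ⟨(0, (1, 0)), ?_⟩
      change (1 : L) • l (D (1, 0)) + (0 : L) • l x₀ = l (D (1, 0))
      simp
    · refine ⟨(0, (0, 1)), ?_⟩
      change (1 : L) • l (D (0, 1)) + (0 : L) • l x₀ = l (D (0, 1))
      simp
  have hmap := hG.map_nhds_eq_of_surj hG'surj
  have hGa : G (1, a) = l x₀ := one_smul _ _
  rw [hGa] at hmap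
  -- the neighbourhood
  have hΨc : ContinuousAt Ψ a := hD.continuousAt
  have hN' : {y : L × (L × L) | y.1 ≠ 0 ∧ y.2 ∈ N ∧ y.1 • Ψ y.2 ∈ V₀ ∧
      ∀ q ∈ S, eval (Ψ y.2) q = 0} ∈ 𝓝 ((1 : L), a) := by
    have hsnd : Tendsto (fun y : L × (L × L) => y.2) (𝓝 ((1 : L), a)) (𝓝 a) :=
      continuous_snd.tendsto' _ _ rfl
    have c1 : ∀ᶠ y : L × (L × L) in 𝓝 ((1 : L), a), y.1 ≠ 0 :=
      continuousAt_fst.eventually_ne one_ne_zero
    have c2 : ∀ᶠ y : L × (L × L) in 𝓝 ((1 : L), a), y.2 ∈ N := continuousAt_snd hN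
    have c4 : ∀ᶠ y : L × (L × L) in 𝓝 ((1 : L), a), ∀ q ∈ S, eval (Ψ y.2) q = 0 :=
      hsnd.eventually hz
    have c3 : ∀ᶠ y : L × (L × L) in 𝓝 ((1 : L), a), y.1 • Ψ y.2 ∈ V₀ := by
      have h1 : ContinuousAt (fun y : L × (L × L) => y.1 • Ψ y.2) ((1 : L), a) := by
        refine continuousAt_fst.smul ?_
        exact ContinuousAt.comp (f := fun y : L × (L × L) => y.2) (x := ((1 : L), a)) hΨc
          continuousAt_snd
      apply h1
      change V₀ ∈ 𝓝 ((1 : L) • Ψ a)
      rw [one_smul, ← hx₀]
      exact hV₀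
    filter_upwards [c1, c2, c3, c4] with y h1 h2 h3 h4
    exact ⟨h1, h2, h3, h4⟩
  have himg := Filter.image_mem_map (m := G) hN'
  rw [hmap] at himg
  have hpre := l.continuous.continuousAt.preimage_mem_nhds himg
  filter_upwards [hV₀, hpre] with z hzV hzl hzS
  obtain ⟨⟨l₀, b⟩, ⟨hl0, hbN, hbV, hbS⟩, hGz⟩ := hzl
  refine ⟨l₀, hl0, b, hbN, ?_⟩
  apply hVinj z hzV _ hbV
  have h1 : l z = l (l₀ • Ψ b) := by
    rw [← hGz, map_smul]
  have h2 : ∀ q ∈ S, eval (l₀ • Ψ b) q = 0 := by
    intro q hq
    obtain ⟨d, hd⟩ := hS q hq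
    rw [eval_smul_hom hd, hbS q hq, mul_zero]
  change B ((fun q : F => eval z (q : MvPolynomial ι L)), l z) =
    B ((fun q : F => eval (l₀ • Ψ b) (q : MvPolynomial ι L)), l (l₀ • Ψ b))
  rw [← h1]
  congr 2
  funext q
  rw [hzS q (hFS q.2), h2 q (hFS q.2)]

end Pool.Agent.K1H65.RC
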